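import Mathlib
import Pool.Agent.H9.Lib.R_seed8.TH717.ST.Small3

/-!
The subspace theorem for points of a rational subspace and of lattices with simultaneous
diagonal form, sizes depending on the point.
-/

set_option autoImplicit false

open Finset Filter Topology

namespace Pool.Agent.Y742.SF

open NumberField
open Pool.Agent.TH286.GT
open Pool.Agent.TH286.GT.GrowD (sg sg_coe sg_inj)
open Pool.Agent.TH717.SK (exists_minor ker_cast real_rows)
open Pool.Agent.TH717.ST

section main

variable {K : Type} [Field K] [NumberField K] [IsGalois ℚ K]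

theorem genT (ψ : K →+* ℂ) (cj : K ≃ₐ[ℚ] K)
    (hcj : ∀ x, ψ (cj x) = (starRingEnd ℂ) (ψ x)) (iK : 𝓞 K) (hi : ψ (iK : K) = Complex.I)
    {d m s : ℕ} (hm : 1 ≤ m) (M : Matrix (Fin d) (Fin d) (𝓞 K)) (hM : M.det ≠ 0)
    (lam : Fin s → Fin d → 𝓞 K) (hlam : ∀ v l, lam v l ≠ 0)
    (b : Fin m → Fin d → ℤ) (hb : LinearIndependent ℤ b)
    (W : Matrix (Fin m) (Fin m) (𝓞 K)) (hW : W.det ≠ 0)
    (c η : ℝ) (hc : 0 ≤ c) (hη0 : 0 < η) (N : ℕ → ℝ) (hN : Tendsto N atTop atTop)
    (kk : ℕ → Fin s → ℕ) (B : ℕ → Matrix (Fin d) (Fin d) ℤ)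
    (hLat : ∀ t, Lat M (bet lam (kk t)) (B t))
    (hdet : ∀ t, Real.log |((B t).det : ℝ)| ≤ c * N t)
    (a : ℕ → Fin m → ℝ) (ha : ∀ t k, |a t k| ≤ c * N t)
    (hprod : ∀ t, ∑ k, a t k + η * N t ≤ rate (sel (Nm M b)) (pr (bet lam (kk t))))
    (x : ℕ → Fin m → ℤ) (X : ℕ → Fin d → ℤ) (hX : ∀ t, X t ≠ 0)
    (hXc : ∀ t l, X t l = ∑ j, x t j * b j l)
    (hXB : ∀ t, ∃ y, X t = (B t).mulVec y)
    (hs : ∀ t k, ‖ψ (∑ j, (W k j : K) * (x t j : K))‖ ≤ Real.exp (a t k)) :
    ∃ f : Fin d → ℤ, (∃ i, ∑ l, f l * b i l ≠ 0) ∧ ∃ᶠ t in atTop, ∑ l, f l * X t l = 0 := by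
  classical
  have hmd : m ≤ d := by
    have := hb.fintype_card_le_finrank
    simpa using this
  set e : Fin m ⊕ Fin (d - m) ≃ Fin d := finSumFinEquiv.trans (finCongr (by omega)) with he
  obtain ⟨G, hG0, hGb⟩ := exists_ext b hb e
  have hiK : iK ≠ 0 := by
    intro h
    rw [h, RingOfIntegers.coe_eq_algebraMap, map_zero, map_zero] at hi
    exact Complex.I_ne_zero hi.symm
  obtain ⟨S, hS⟩ := real_rows (sg cj) iK hiK (by norm_num) W hW
  set R : Matrix (Fin m) (Fin m) (𝓞 K) := Matrix.of fun k j =>
    if k ∈ S then W k j + sg cj (W k j) else iK * (W k j - sg cj (W k j)) with hR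
  set φ : 𝓞 K →+* ℂ := ψ.comp (algebraMap (𝓞 K) K) with hφ
  have hφcj : ∀ x : 𝓞 K, φ (sg cj x) = (starRingEnd ℂ) (φ x) := fun x => hcj x
  have hφinj : ∀ x : 𝓞 K, φ x = 0 → x = 0 := by
    intro x hx
    have h1 : ψ (x : K) = 0 := hx
    rw [map_eq_zero] at h1
    exact_mod_cast h1
  have hreal : ∀ i j, (φ (R i j)).im = 0 := by
    intro i j
    simp only [hR, Matrix.of_apply]
    split_ifs
    · rw [map_add, hφcj]
      simp
    · rw [map_mul, map_sub, hφcj]
      have : φ iK = Complex.I := hi
      rw [this]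
      simp
  have hal : ∀ t l, bet lam (kk t) l ≠ 0 := fun t l =>
    Finset.prod_ne_zero_iff.2 fun v _ => pow_ne_zero _ (hlam v l)
  have hrate : ∀ t, rate (sel (Nm M b)) (pr (bet lam (kk t))) ≤ Real.log |((B t).det : ℝ)| :=
    fun t => (rate_le M hM _ (hal t) (B t) (hLat t).2 (Nm M b)).2
  set g0 := G.det with hg0
  set γ : ℝ := η / (8 * (m + 1)) with hγ
  have hm0 : (0 : ℝ) ≤ m := Nat.cast_nonneg _
  have hγ0 : 0 < γ := by positivity
  have hmγ : m * γ ≤ η / 8 := by
    rw [hγ, mul_div_assoc', div_le_div_iff₀ (by positivity) (by norm_num)]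
    nlinarith
  have hγη : γ ≤ η / 8 := by
    rw [hγ]
    apply div_le_div_of_nonneg_left hη0.le (by norm_num)
    linarith
  set c' : ℝ := 2 + c + 2 * γ with hc'
  have hc1 : 1 ≤ c' := by rw [hc']; linarith
  have hg1 : (1 : ℝ) ≤ |(g0 : ℝ)| := by
    have := Int.one_le_abs hG0
    exact_mod_cast this
  set lg : ℝ := Real.log (2 * |(g0 : ℝ)|) with hlg
  have hlg0 : 0 ≤ lg := Real.log_nonneg (by linarith)
  set Kc : ℝ := Real.log |((Algebra.norm ℤ (∏ s ∈ sel (Nm M b),
    ((Nm M b).submatrix s id).det) : ℤ) : ℝ)| + Real.log (m.factorial : ℝ) -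
      Real.log ‖φ R.det‖ with hKc
  -- good indices
  have hev : ∀ᶠ t in atTop, lg ≤ N t ∧ (0 : ℝ) < N t ∧ m * lg ≤ η / 8 * N t ∧
      Kc + m * lg < η / 2 * N t :=
    (hN.eventually_ge_atTop _).and ((hN.eventually_gt_atTop 0).and
      (((hN.const_mul_atTop (by positivity : (0 : ℝ) < η / 8)).eventually_ge_atTop _).and
        ((hN.const_mul_atTop (by positivity : (0 : ℝ) < η / 2)).eventually_gt_atTop _)))
  obtain ⟨t0, ht0⟩ := Filter.eventually_atTop.1 hev
  have hτ : Tendsto (fun t => t + t0) atTop atTop := tendsto_add_atTop_nat t0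
  have hlogA : ∀ t k, Real.log (2 * |(g0 : ℝ)| * Real.exp (a (t + t0) k)) =
      lg + a (t + t0) k := by
    intro t k
    rw [Real.log_mul (by positivity) (Real.exp_pos _).ne', Real.log_exp]
  set A : ℕ → Fin d → ℝ := fun t l => Sum.elim
    (fun k => 2 * |(g0 : ℝ)| * Real.exp (a (t + t0) k))
    (fun _ => Real.exp (-(2 * γ * N (t + t0)))) (e.symm l) with hA
  have hAl : ∀ t k, A t (e (Sum.inl k)) = 2 * |(g0 : ℝ)| * Real.exp (a (t + t0) k) := by
    intro t k
    simp [hA]
  have hAr : ∀ t k, A t (e (Sum.inr k)) = Real.exp (-(2 * γ * N (t + t0))) := by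
    intro t k
    simp [hA]
  have hsumA : ∀ t, ∑ l, Real.log (A t l) = (m * lg + ∑ k, a (t + t0) k) +
      ((d - m : ℕ) : ℝ) * (-(2 * γ * N (t + t0))) := by
    intro t
    rw [← Equiv.sum_comp e, Fintype.sum_sum_type]
    congr 1
    · simp_rw [hAl, hlogA]
      rw [Finset.sum_add_distrib, Finset.sum_const, Finset.card_univ, Fintype.card_fin,
        nsmul_eq_mul]
    · simp_rw [hAr, Real.log_exp]
      rw [Finset.sum_const, Finset.card_univ, Fintype.card_fin, nsmul_eq_mul]
  have hRdet : R.det ≠ 0 := hS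
  have key := subT (𝓞 K) φ (pen _ _) cb sf comp d s m (hm.trans hmd) hmd (Mx e R G) M
    lam ⟨Mx_det e R hRdet G hG0, Mx_im φ e R hreal G, hM, hlam⟩ c' γ hc1 hγ0
    (fun t => N (t + t0)) (hN.comp hτ)
    (fun t => kk (t + t0)) (fun t => B (t + t0)) (fun t => hLat _)
    A
    (by
      intro t
      obtain ⟨h1, h3, h2, h4⟩ := ht0 (t + t0) (Nat.le_add_left _ _)
      refine ⟨?_, ?_, ?_, ?_⟩
      · refine (hdet (t + t0)).trans ?_
        refine mul_le_mul_of_nonneg_right ?_ h3.le
        rw [hc']
        linarith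
      · intro l
        obtain ⟨x, rfl⟩ := e.surjective l
        rcases x with x | x
        · rw [hAl]
          have := Real.exp_pos (a (t + t0) x)
          positivity
        · rw [hAr]
          exact Real.exp_pos _
      · intro l
        show |Real.log (A t l)| ≤ c' * N (t + t0)
        obtain ⟨x, rfl⟩ := e.surjective l
        rcases x with x | x
        · rw [hAl, hlogA]
          calc |lg + a (t + t0) x| ≤ |lg| + |a (t + t0) x| := abs_add_le _ _
            _ ≤ N (t + t0) + c * N (t + t0) := by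
                rw [abs_of_nonneg hlg0]
                exact add_le_add h1 (ha _ _)
            _ ≤ c' * N (t + t0) := by
                rw [hc']
                nlinarith
        · rw [hAr, Real.log_exp, abs_neg, abs_of_nonneg (by positivity), hc']
          nlinarith
      · show ∑ l, Real.log (A t l) + γ * N (t + t0) ≤ Real.log |((B (t + t0)).det : ℝ)|
        rw [hsumA]
        have h6 : (0 : ℝ) ≤ ((d - m : ℕ) : ℝ) * (2 * γ * N (t + t0)) := by positivity
        have h8 : γ * N (t + t0) ≤ η / 8 * N (t + t0) := mul_le_mul_of_nonneg_right hγη h3.le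
        have h9 := hprod (t + t0)
        have h10 := hrate (t + t0)
        have h11 : (0 : ℝ) < η * N (t + t0) := by positivity
        nlinarith)
    (fun t => X (t + t0)) (fun t => hX _)
    (by
      intro t
      refine ⟨?_, hXB (t + t0)⟩
      intro l
      obtain ⟨q1, q2⟩ := adj_of e b G hGb (x (t + t0)) (X (t + t0)) (hXc (t + t0))
      obtain ⟨k, rfl⟩ := e.surjective l
      rcases k with k | k
      · rw [(Mx_apply e R G (X (t + t0))).1 k]
        simp_rw [q1]
        set w : ℂ := ψ (∑ j, (W k j : K) * (x (t + t0) j : K)) with hw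
        have hw1 : φ (∑ j, W k j * ((x (t + t0) j : ℤ) : 𝓞 K)) = w := by
          rw [hw, hφ, RingHom.comp_apply, map_sum]
          congr 1
        have hw2 : φ (∑ j, sg cj (W k j) * ((x (t + t0) j : ℤ) : 𝓞 K)) = (starRingEnd ℂ) w := by
          rw [← hw1, ← hφcj, map_sum (sg cj)]
          congr 1
          refine Finset.sum_congr rfl fun j _ => ?_
          rw [map_mul, map_intCast]
        have hwn : ‖w‖ ≤ Real.exp (a (t + t0) k) := hs (t + t0) k
        have h1 : ‖(starRingEnd ℂ) w‖ = ‖w‖ := RCLike.norm_conj w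
        show ‖φ (∑ j, R k j * (((g0 * x (t + t0) j : ℤ)) : 𝓞 K))‖ ≤ A t (e (Sum.inl k))
        rw [hAl]
        have hgR : ∑ j, R k j * (((g0 * x (t + t0) j : ℤ)) : 𝓞 K) =
            ((g0 : ℤ) : 𝓞 K) * ∑ j, R k j * ((x (t + t0) j : ℤ) : 𝓞 K) := by
          rw [Finset.mul_sum]
          refine Finset.sum_congr rfl fun j _ => ?_
          push_cast
          ring
        rw [hgR, map_mul, norm_mul, map_intCast, Complex.norm_intCast]
        have hR2 : ‖φ (∑ j, R k j * ((x (t + t0) j : ℤ) : 𝓞 K))‖ ≤
            2 * Real.exp (a (t + t0) k) := by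
          by_cases hl : k ∈ S
          · have h2 : ∑ j, R k j * ((x (t + t0) j : ℤ) : 𝓞 K) =
                ∑ j, W k j * ((x (t + t0) j : ℤ) : 𝓞 K) +
                  ∑ j, sg cj (W k j) * ((x (t + t0) j : ℤ) : 𝓞 K) := by
              rw [← Finset.sum_add_distrib]
              refine Finset.sum_congr rfl fun j _ => ?_
              simp only [hR, Matrix.of_apply, hl, if_true]
              ring
            rw [h2, map_add, hw1, hw2]
            calc ‖w + (starRingEnd ℂ) w‖ ≤ ‖w‖ + ‖(starRingEnd ℂ) w‖ := norm_add_le _ _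
              _ = 2 * ‖w‖ := by rw [h1]; ring
              _ ≤ 2 * Real.exp (a (t + t0) k) := by gcongr
          · have h2 : ∑ j, R k j * ((x (t + t0) j : ℤ) : 𝓞 K) =
                iK * (∑ j, W k j * ((x (t + t0) j : ℤ) : 𝓞 K) -
                  ∑ j, sg cj (W k j) * ((x (t + t0) j : ℤ) : 𝓞 K)) := by
              rw [← Finset.sum_sub_distrib, Finset.mul_sum]
              refine Finset.sum_congr rfl fun j _ => ?_
              simp only [hR, Matrix.of_apply, hl, if_false]
              ring
            have hI : φ iK = Complex.I := hi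
            rw [h2, map_mul, map_sub, hw1, hw2, norm_mul, hI, Complex.norm_I, one_mul]
            calc ‖w - (starRingEnd ℂ) w‖ ≤ ‖w‖ + ‖(starRingEnd ℂ) w‖ := norm_sub_le _ _
              _ = 2 * ‖w‖ := by rw [h1]; ring
              _ ≤ 2 * Real.exp (a (t + t0) k) := by gcongr
        calc |(g0 : ℝ)| * ‖φ (∑ j, R k j * ((x (t + t0) j : ℤ) : 𝓞 K))‖ ≤
            |(g0 : ℝ)| * (2 * Real.exp (a (t + t0) k)) := by gcongr
          _ = 2 * |(g0 : ℝ)| * Real.exp (a (t + t0) k) := by ring
      · rw [(Mx_apply e R G (X (t + t0))).2 k, q2, hAr]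
        simp [(Real.exp_pos _).le])
    (by
      intro t z hz hzB
      obtain ⟨h1, h3, h2, h4⟩ := ht0 (t + t0) (Nat.le_add_left _ _)
      by_contra hcon
      push Not at hcon
      choose z' hz' using hzB
      have hzr : ∀ i k, G.adjugate.mulVec (z i) (e (Sum.inr k)) = 0 := by
        intro i k
        have h5 := hcon i (e (Sum.inr k))
        rw [(Mx_apply e R G (z i)).2 k, hAr, map_intCast, Complex.norm_intCast,
          ← Real.exp_add] at h5
        have h6 : Real.exp (γ * (N (t + t0) : ℝ) + -(2 * γ * N (t + t0))) < 1 := by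
          rw [Real.exp_lt_one_iff]
          have : 0 < γ * N (t + t0) := by positivity
          linarith
        have h7 : |((G.adjugate.mulVec (z i) (e (Sum.inr k)) : ℤ) : ℝ)| < 1 := h5.trans_lt h6
        by_contra hne
        have h8 := Int.one_le_abs hne
        have h9 : (1 : ℝ) ≤ |((G.adjugate.mulVec (z i) (e (Sum.inr k)) : ℤ) : ℝ)| := by
          exact_mod_cast h8
        linarith
      set aa : Matrix (Fin m) (Fin m) ℤ := Matrix.of fun i j =>
        G.adjugate.mulVec (z i) (e (Sum.inl j)) with haa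
      have hga : ∀ i l, g0 * z i l = ∑ j, aa i j * b j l := fun i l =>
        adj_dec e b G hGb (z i) (hzr i) l
      have hadet : aa.det ≠ 0 := by
        intro h0
        obtain ⟨v, hv, hvv⟩ := Matrix.exists_vecMul_eq_zero_iff.2 h0
        apply hv
        have h5 : ∑ i, v i • z i = 0 := by
          have h6 : g0 • ∑ i, v i • z i = 0 := by
            funext l
            simp only [Pi.smul_apply, Finset.sum_apply, smul_eq_mul, Pi.zero_apply]
            calc g0 * ∑ i, v i * z i l = ∑ i, v i * (g0 * z i l) := by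
                  rw [Finset.mul_sum]
                  exact Finset.sum_congr rfl fun i _ => by ring
              _ = ∑ j, (∑ i, v i * aa i j) * b j l := by
                  simp_rw [hga, Finset.mul_sum, Finset.sum_mul]
                  rw [Finset.sum_comm]
                  exact Finset.sum_congr rfl fun j _ => Finset.sum_congr rfl fun i _ => by ring
              _ = 0 := by
                  refine Finset.sum_eq_zero fun j _ => ?_
                  have := congrFun hvv j
                  simp only [Matrix.vecMul, dotProduct, Pi.zero_apply] at this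
                  rw [this, zero_mul]
          exact (smul_eq_zero.1 h6).resolve_left hG0
        funext i
        exact Fintype.linearIndependent_iff.1 hz v h5 i
      have hvol := vol_lower M _ (hal (t + t0)) (B (t + t0)) (hLat (t + t0)).2 b g0 1 z z'
        (fun i => by rw [pow_one]; exact hz' i) aa hadet hga
      rw [Nat.cast_one, mul_one] at hvol
      -- the upper bound
      have hU : ∀ k i, ‖(Matrix.of fun k i => φ (∑ j, R k j * ((aa i j : ℤ) : 𝓞 K))) k i‖ ≤
          Real.exp (γ * N (t + t0)) * (2 * |(g0 : ℝ)| * Real.exp (a (t + t0) k)) := by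
        intro k i
        have h5 := hcon i (e (Sum.inl k))
        rw [(Mx_apply e R G (z i)).1 k, hAl] at h5
        exact h5
      have h5 := norm_det_le _ _ hU
      have h6 : (Matrix.of fun k i => φ (∑ j, R k j * ((aa i j : ℤ) : 𝓞 K))).det =
          φ R.det * ((aa.det : ℤ) : ℂ) := by
        have h7 : (Matrix.of fun k i => φ (∑ j, R k j * ((aa i j : ℤ) : 𝓞 K))) =
            (R * (aa.map (Int.castRingHom (𝓞 K))).transpose).map φ := by
          ext k i
          simp [Matrix.mul_apply]
        have h8 : (aa.map (Int.castRingHom (𝓞 K))).det = ((aa.det : ℤ) : 𝓞 K) := by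
          have := (Int.castRingHom (𝓞 K)).map_det aa
          rw [eq_intCast] at this
          rw [this]
          rfl
        rw [h7, ← RingHom.mapMatrix_apply, ← RingHom.map_det, Matrix.det_mul,
          Matrix.det_transpose, h8, map_mul, map_intCast]
      rw [h6, norm_mul, Complex.norm_intCast] at h5
      have hφR : 0 < ‖φ R.det‖ := by
        rw [norm_pos_iff]
        exact fun h => hRdet (hφinj _ h)
      have hda : (0 : ℝ) < |(aa.det : ℝ)| := by
        rw [abs_pos]
        exact_mod_cast hadet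
      have h7 := Real.log_le_log (by positivity) h5
      have hfac : (0 : ℝ) < m.factorial := by exact_mod_cast m.factorial_pos
      have hpr : ∀ k, 0 < Real.exp (γ * N (t + t0)) *
          (2 * |(g0 : ℝ)| * Real.exp (a (t + t0) k)) := by
        intro k
        positivity
      rw [Real.log_mul hφR.ne' hda.ne', Real.log_mul hfac.ne'
        (Finset.prod_pos fun k _ => hpr k).ne', Real.log_prod (fun k _ => (hpr k).ne')] at h7
      have h8 : ∀ k, Real.log (Real.exp (γ * N (t + t0)) *
          (2 * |(g0 : ℝ)| * Real.exp (a (t + t0) k))) =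
          γ * N (t + t0) + (lg + a (t + t0) k) := by
        intro k
        rw [Real.log_mul (Real.exp_pos _).ne' (by positivity), Real.log_exp, hlogA]
      simp_rw [h8] at h7
      rw [Finset.sum_add_distrib, Finset.sum_add_distrib, Finset.sum_const, Finset.sum_const,
        Finset.card_univ, Fintype.card_fin, nsmul_eq_mul, nsmul_eq_mul] at h7
      have h11 : (m : ℝ) * (γ * N (t + t0)) ≤ η / 8 * N (t + t0) := by
        rw [← mul_assoc]
        exact mul_le_mul_of_nonneg_right hmγ h3.le
      have h12 := hprod (t + t0)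
      have h13 : (0 : ℝ) < η * N (t + t0) := by positivity
      rw [hKc] at h4
      nlinarith)
    b hb
  obtain ⟨f, hf, hfr⟩ := key
  exact ⟨f, hf, hτ.frequently hfr⟩

end main

end Pool.Agent.Y742.SF
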