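import Mathlib
import Pool.Agent.H9.Lib.R_seed8.Y742.SF.PatK

/-!
The subspace theorem over a number field for one pattern: from rational to `K`-linear relations.
-/

set_option autoImplicit false
set_option linter.unusedSectionVars false
set_option linter.unusedSimpArgs false

open Finset Filter Topology

namespace Pool.Agent.Y742.SF

open NumberField
open Pool.Agent.TH286.GT
open Pool.Agent.TH286.GT.GrowD (sg sg_coe sg_inj)
open Pool.Agent.TH717.ST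
open Pool.Agent.Y215.SK

variable {K : Type} [Field K] [NumberField K] [IsGalois ℚ K] {q m : ℕ}

theorem patK (ψ : K →+* ℂ) (cj : K ≃ₐ[ℚ] K) (hcj : ∀ x, ψ (cj x) = (starRingEnd ℂ) (ψ x))
    (iK : 𝓞 K) (hi : ψ (iK : K) = Complex.I) {s : ℕ} (hm : 1 ≤ m)
    (Φ : Fin q → Fin m → 𝓞 K) (U : Fin s → 𝓞 K) (hU : ∀ v, U v ≠ 0)
    (hUc : ∀ v w, v ≠ w → IsCoprime (Ideal.span {U v}) (Ideal.span {U w}))
    (π : (K ≃ₐ[ℚ] K) → Equiv.Perm (Fin s))
    (hUπ : ∀ σ v, Ideal.span {sg σ (U v)} = Ideal.span {U (π σ v)})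
    (I : (K ≃ₐ[ℚ] K) → Fin m → Fin q)
    (hI : ∀ σ, (Matrix.of fun a j => Φ (I σ a) j).det ≠ 0)
    (J : Fin s → Fin m → Fin q)
    (hJ : ∀ v, (Matrix.of fun a j => Φ (J v a) j).det ≠ 0)
    (c η : ℝ) (hc : 0 ≤ c) (hη : 0 < η) (N : ℕ → ℝ) (hN : Tendsto N atTop atTop)
    (hN0 : ∀ t, 0 ≤ N t)
    (k : ℕ → Fin q → Fin s → ℕ) (X : ℕ → Fin m → 𝓞 K)
    (hk : ∀ t i, uu U (k t) i ∣ phi Φ (X t) i)
    (hY : ∀ t i, phi Φ (X t) i ≠ 0)
    (hsize : ∀ t i σ, Real.log ‖ph ψ (sg σ (phi Φ (X t) i))‖ ≤ c * N t)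
    (hsum : ∀ t, ∑ σ, ∑ a, Real.log ‖ph ψ (sg σ (phi Φ (X t) (I σ a)))‖ + η * N t ≤
      ∑ v, ∑ a, (k t (J v a) v : ℝ) * Real.log (Ideal.absNorm (Ideal.span {U v}) : ℕ)) :
    ∃ d : Fin m → K, d ≠ 0 ∧ ∃ᶠ t in atTop, ∑ j, d j * ((X t j : 𝓞 K) : K) = 0 := by
  classical
  by_contra hcon
  push Not at hcon
  -- enumeration of the functionals
  obtain ⟨F, hF⟩ := exists_surjective_nat (Fin (q * Module.finrank ℤ (𝓞 K)) → ℤ)
  choose φ hφ using fun (f : Fin (q * Module.finrank ℤ (𝓞 K)) → ℤ) (i : Fin q) =>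
    exists_trace (comp f i)
  let dd : (Fin (q * Module.finrank ℤ (𝓞 K)) → ℤ) → Fin m → K := fun f j =>
    ∑ i, φ f i * ((Φ i j : 𝓞 K) : K)
  have hdd : ∀ f (x : Fin m → 𝓞 K), ((∑ l, f l * cv (phi Φ x) l : ℤ) : ℚ) =
      Algebra.trace ℚ K (∑ j, dd f j * ((x j : 𝓞 K) : K)) := by
    intro f x
    rw [sum_cv, Int.cast_sum, Finset.sum_congr rfl fun i _ => hφ f i _, ← map_sum]
    congr 1
    simp only [dd, phi, Finset.sum_mul]
    rw [Finset.sum_comm]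
    refine Finset.sum_congr rfl fun i _ => ?_
    push_cast
    rw [Finset.mul_sum]
    refine Finset.sum_congr rfl fun j _ => ?_
    ring
  choose B hB using fun i : ℕ => exists_avoid (K := K) i
  -- sizes of the multipliers
  have hH : ∀ i : ℕ, ∃ H : ℝ, 1 ≤ H ∧ ∀ s ≤ B i, ∀ σ : K ≃ₐ[ℚ] K,
      ‖ph ψ (sg σ (lamS K s))‖ ≤ H := by
    intro i
    refine ⟨1 + ∑ s ∈ Finset.range (B i + 1), ∑ σ : K ≃ₐ[ℚ] K, ‖ph ψ (sg σ (lamS K s))‖, ?_, ?_⟩
    · have : 0 ≤ ∑ s ∈ Finset.range (B i + 1), ∑ σ : K ≃ₐ[ℚ] K, ‖ph ψ (sg σ (lamS K s))‖ :=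
        Finset.sum_nonneg fun _ _ => Finset.sum_nonneg fun _ _ => norm_nonneg _
      linarith
    · intro s hs σ
      have h1 : ‖ph ψ (sg σ (lamS K s))‖ ≤ ∑ σ : K ≃ₐ[ℚ] K, ‖ph ψ (sg σ (lamS K s))‖ :=
        Finset.single_le_sum (f := fun σ : K ≃ₐ[ℚ] K => ‖ph ψ (sg σ (lamS K s))‖)
          (fun _ _ => norm_nonneg _) (Finset.mem_univ σ)
      have h2 : ∑ σ : K ≃ₐ[ℚ] K, ‖ph ψ (sg σ (lamS K s))‖ ≤
          ∑ s ∈ Finset.range (B i + 1), ∑ σ : K ≃ₐ[ℚ] K, ‖ph ψ (sg σ (lamS K s))‖ :=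
        Finset.single_le_sum (f := fun s => ∑ σ : K ≃ₐ[ℚ] K, ‖ph ψ (sg σ (lamS K s))‖)
          (fun _ _ => Finset.sum_nonneg fun _ _ => norm_nonneg _)
          (Finset.mem_range.2 (by omega))
      linarith
  choose H hH1 hH2 using hH
  obtain ⟨κ, hκ, hκP⟩ := exists_diag (fun i t =>
    (dd (F i) ≠ 0 → ∑ j, dd (F i) j * ((X t j : 𝓞 K) : K) ≠ 0) ∧
      (i + 1) * Real.log (H i) ≤ N t) (by
    intro i
    refine Filter.Eventually.and ?_ ?_
    · by_cases h : dd (F i) ≠ 0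
      · filter_upwards [hcon _ h] with t ht _
        exact ht
      · exact Filter.Eventually.of_forall fun t h' => absurd h' h
    · exact hN.eventually_ge_atTop _)
  -- the functionals of `λ`
  let gg : ℕ → (Fin (q * Module.finrank ℤ (𝓞 K)) → ℤ) → (𝓞 K →ₗ[ℤ] ℤ) := fun t f =>
    ∑ i, (comp f i) ∘ₗ (LinearMap.mulRight ℤ (phi Φ (X t) i))
  have hgg : ∀ t f lam, gg t f lam = ∑ l, f l * cv (phi Φ (fun j => lam * X t j)) l := by
    intro t f lam
    rw [sum_cv]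
    simp only [gg, LinearMap.sum_apply]
    refine Finset.sum_congr rfl fun i _ => ?_
    rw [phi_mul]
    rfl
  have hgg0 : ∀ t f, ∑ j, dd f j * ((X t j : 𝓞 K) : K) ≠ 0 → gg t f ≠ 0 := by
    intro t f h h0
    apply h
    have h1 : ∀ lam : 𝓞 K, Algebra.trace ℚ K ((∑ j, dd f j * ((X t j : 𝓞 K) : K)) * lam) = 0 := by
      intro lam
      have h2 : ((gg t f lam : ℤ) : ℚ) = 0 := by rw [h0]; simp
      rw [hgg, hdd] at h2
      rw [← h2, Finset.sum_mul]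
      congr 1
      refine Finset.sum_congr rfl fun j _ => ?_
      push_cast
      ring
    have hnd := traceForm_nondegenerate ℚ K
    refine hnd.1 _ fun y => ?_
    obtain ⟨n, hn, -, hint⟩ := NumberField.exists_nat_le_mulHeight₁ y
    have h3 := h1 ⟨(n : K) * y, hint⟩
    have hnK : (n : ℚ) ≠ 0 := by exact_mod_cast hn
    rw [Algebra.traceForm_apply]
    have h4 : (∑ j, dd f j * ((X t j : 𝓞 K) : K)) * ((n : K) * y) =
        (n : ℚ) • ((∑ j, dd f j * ((X t j : 𝓞 K) : K)) * y) := by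
      rw [Algebra.smul_def, map_natCast]
      ring
    have h5 : Algebra.trace ℚ K ((n : ℚ) • ((∑ j, dd f j * ((X t j : 𝓞 K) : K)) * y)) = 0 := by
      rw [← h4]
      exact h3
    rw [map_smul, smul_eq_mul] at h5
    exact (mul_eq_zero.1 h5).resolve_left hnK
  -- the multipliers
  have hsel : ∀ t, ∃ s ≤ B (κ t), ∀ i ≤ κ t, gg t (F i) ≠ 0 → gg t (F i) (lamS K s) ≠ 0 := by
    intro t
    obtain ⟨s, hs, hs2⟩ := hB (κ t) (fun i => gg t (F i))
    exact ⟨s, hs, fun i hi => hs2 ⟨i, by omega⟩⟩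
  choose sel hsel1 hsel2 using hsel
  obtain ⟨m', hm'⟩ : ∃ m' : ℕ, m' = m * Module.finrank ℤ (𝓞 K) := ⟨_, rfl⟩
  have hm'0 : (0 : ℝ) ≤ m' := Nat.cast_nonneg _
  obtain ⟨δ, hδ⟩ : ∃ δ : ℝ, δ = η / (2 * ((m' : ℝ) + 1)) := ⟨_, rfl⟩
  have hδ0 : 0 < δ := by rw [hδ]; positivity
  have hδ1 : ((m * Module.finrank ℤ (𝓞 K) : ℕ) : ℝ) * δ ≤ η / 2 := by
    rw [← hm', hδ, mul_div_assoc', div_le_div_iff₀ (by positivity) (by norm_num)]
    nlinarith
  have hev : ∀ᶠ t in atTop, Real.log (H (κ t)) ≤ δ * N t := by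
    have h3 : Tendsto (fun t => (κ t : ℝ)) atTop atTop := tendsto_natCast_atTop_atTop.comp hκ
    filter_upwards [h3.eventually_ge_atTop (1 / δ), hκP] with t ht4 ht5
    have h4 := (ht5 (κ t) le_rfl).2
    have h5 : 0 ≤ Real.log (H (κ t)) := Real.log_nonneg (hH1 _)
    have h6 : 1 / δ * Real.log (H (κ t)) ≤ N t := by
      refine le_trans ?_ h4
      refine mul_le_mul_of_nonneg_right ?_ h5
      linarith
    rw [div_mul_eq_mul_div, div_le_iff₀ hδ0] at h6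
    linarith
  obtain ⟨t0, ht0⟩ := Filter.eventually_atTop.1 hev
  have hsh : Tendsto (fun t => t + t0) atTop atTop := tendsto_add_atTop_nat t0
  obtain ⟨f, ⟨p, hp⟩, hfr⟩ := patJ ψ cj hcj iK hi hm Φ U hU hUc π hUπ I hI J hJ c η hc hη
    (fun t => N (t + t0)) (hN.comp hsh) (fun t => hN0 _) (fun t => k (t + t0))
    (fun t => X (t + t0)) (fun t => lamS K (sel (t + t0))) (fun t => lamS_ne _) δ hδ0.le hδ1
    (by
      intro t σ
      have h4 := ht0 (t + t0) (Nat.le_add_left _ _)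
      have h5 := hH2 (κ (t + t0)) (sel (t + t0)) (hsel1 _) σ
      exact h5.trans ((Real.log_le_iff_le_exp (lt_of_lt_of_le one_pos (hH1 _))).1 h4))
    (fun t => hk _) (fun t => hY _) (fun t => hsize _) (fun t => hsum _)
  obtain ⟨i, rfl⟩ := hF f
  have hφne : dd (F i) ≠ 0 := by
    intro h
    apply hp
    have h1 := hdd (F i) (fun j => if (ec K m p).1 = j then om K (ec K m p).2 else 0)
    have h2 : phi Φ (fun j => if (ec K m p).1 = j then om K (ec K m p).2 else 0) =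
        fun i => Φ i (ec K m p).1 * om K (ec K m p).2 := by
      funext i
      unfold phi
      rw [Finset.sum_eq_single (ec K m p).1]
      · simp
      · intro j _ hj
        simp [Ne.symm hj]
      · intro h
        exact absurd (Finset.mem_univ _) h
    rw [h2, h] at h1
    simp only [Pi.zero_apply, zero_mul, Finset.sum_const_zero, map_zero] at h1
    have h3 : ((∑ l, F i l * bv Φ p l : ℤ) : ℚ) = 0 := h1
    exact_mod_cast h3
  have hev2 : ∀ᶠ t in atTop, i ≤ κ (t + t0) ∧ ∀ i ≤ κ (t + t0),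
      (dd (F i) ≠ 0 → ∑ j, dd (F i) j * ((X (t + t0) j : 𝓞 K) : K) ≠ 0) ∧
      (i + 1) * Real.log (H i) ≤ N (t + t0) :=
    (hsh.eventually (hκ.eventually_ge_atTop i)).and (hsh.eventually hκP)
  obtain ⟨t, ht1, ht2, ht3⟩ := (hfr.and_eventually hev2).exists
  have h1 := (ht3 i ht2).1 hφne
  have h2 := hsel2 (t + t0) i ht2 (hgg0 _ _ h1)
  apply h2
  rw [hgg, ← ht1]

end Pool.Agent.Y742.SF
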