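import Mathlib
import Pool.Agent.H9.Lib.R_seed8.Y742.SF.Pl

/-!
Place data, clearing denominators, the product formula.
-/

set_option autoImplicit false
set_option linter.unusedSectionVars false
set_option linter.unusedSimpArgs false

open Finset Filter Topology

namespace Pool.Agent.Y742.SF

open NumberField IsDedekindDomain
open Pool.Agent.TH286.GT.GrowD (sg sg_coe sg_inj)
open Pool.Agent.Y215.SK

/-- a finite set of primes stable under the Galois group -/
structure PD (K : Type) [Field K] [NumberField K] [IsGalois ℚ K] where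
  ψ : K →+* ℂ
  cj : K ≃ₐ[ℚ] K
  hcj : ∀ x, ψ (cj x) = (starRingEnd ℂ) (ψ x)
  iK : 𝓞 K
  hi : ψ (iK : K) = Complex.I
  s : ℕ
  P : Fin s → HeightOneSpectrum (𝓞 K)
  hP : Function.Injective P
  π : (K ≃ₐ[ℚ] K) → Equiv.Perm (Fin s)
  hπ : ∀ σ v, Ideal.map (sg σ) (P v).asIdeal = (P (π σ v)).asIdeal
  h : ℕ
  hh : 0 < h
  U : Fin s → 𝓞 K
  hU : ∀ v, Ideal.span {U v} = (P v).asIdeal ^ h

namespace PD

variable {K : Type} [Field K] [NumberField K] [IsGalois ℚ K] (D : PD K)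

theorem U_ne (v : Fin D.s) : D.U v ≠ 0 := gen_ne (D.P v) D.h D.hh _ (D.hU v)

theorem U_coprime (v w : Fin D.s) (hvw : v ≠ w) :
    IsCoprime (Ideal.span {D.U v}) (Ideal.span {D.U w}) := by
  rw [D.hU, D.hU]
  refine IsCoprime.pow ?_
  rw [Ideal.isCoprime_iff_sup_eq]
  refine Ideal.IsMaximal.coprime_of_ne (D.P v).isMaximal (D.P w).isMaximal ?_
  intro h
  exact hvw (D.hP (HeightOneSpectrum.ext h))

theorem U_pi (σ : K ≃ₐ[ℚ] K) (v : Fin D.s) :
    Ideal.span {sg σ (D.U v)} = Ideal.span {D.U (D.π σ v)} := by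
  rw [D.hU, ← D.hπ, ← Ideal.map_pow, ← D.hU v, Ideal.map_span, Set.image_singleton]

/-- the absolute values -/
noncomputable def av (v : (K ≃ₐ[ℚ] K) ⊕ Fin D.s) (x : K) : ℝ :=
  match v with
  | Sum.inl σ => ‖D.ψ (σ x)‖
  | Sum.inr w => fv (D.P w) x

theorem av_mul (v : (K ≃ₐ[ℚ] K) ⊕ Fin D.s) (x y : K) : D.av v (x * y) = D.av v x * D.av v y := by
  rcases v with σ | w
  · simp [av]
  · exact fv_mul _ _ _

theorem av_add (v : (K ≃ₐ[ℚ] K) ⊕ Fin D.s) (x y : K) : D.av v (x + y) ≤ D.av v x + D.av v y := by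
  rcases v with σ | w
  · show ‖D.ψ (σ (x + y))‖ ≤ _
    rw [map_add, map_add]
    exact norm_add_le _ _
  · exact (fv_add_le _ _ _).trans (max_le_add_of_nonneg (fv_nonneg _ _) (fv_nonneg _ _))

theorem av_zero (v : (K ≃ₐ[ℚ] K) ⊕ Fin D.s) : D.av v 0 = 0 := by
  rcases v with σ | w
  · simp [av]
  · exact fv_zero _

theorem av_pos (v : (K ≃ₐ[ℚ] K) ⊕ Fin D.s) (x : K) (hx : x ≠ 0) : 0 < D.av v x := by
  rcases v with σ | w
  · show 0 < ‖D.ψ (σ x)‖
    rw [norm_pos_iff]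
    exact (map_ne_zero _).2 ((map_ne_zero _).2 hx)
  · exact fv_pos _ _ hx

theorem av_nonneg (v : (K ≃ₐ[ℚ] K) ⊕ Fin D.s) (x : K) : 0 ≤ D.av v x := by
  rcases eq_or_ne x 0 with rfl | h
  · rw [av_zero]
  · exact (D.av_pos v x h).le

theorem av_one (v : (K ≃ₐ[ℚ] K) ⊕ Fin D.s) : D.av v 1 = 1 := by
  rcases v with σ | w
  · simp [av]
  · exact fv_one _

theorem av_sum_le (v : (K ≃ₐ[ℚ] K) ⊕ Fin D.s) {ι : Type} (s : Finset ι) (x : ι → K) :
    D.av v (∑ i ∈ s, x i) ≤ ∑ i ∈ s, D.av v (x i) := by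
  classical
  induction s using Finset.induction_on with
  | empty => simp [av_zero]
  | insert i s hi ih =>
    rw [Finset.sum_insert hi, Finset.sum_insert hi]
    exact (D.av_add v _ _).trans (by linarith)

theorem coe_U (E : Fin D.s → ℕ) :
    ((∏ v, D.U v ^ E v : 𝓞 K) : K) = ∏ v, ((D.U v : 𝓞 K) : K) ^ E v := by
  push_cast
  rfl

/-- the coordinates away from the given primes are integral -/
def TInt (x : K) : Prop := ∀ w : HeightOneSpectrum (𝓞 K), (∀ v, w ≠ D.P v) → fv w x ≤ 1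

/-- clearing denominators -/
theorem clear {n : ℕ} (x : Fin n → K) (hx : ∀ j, D.TInt (x j)) (B : ℝ)
    (hB : ∀ v j, fv (D.P v) (x j) ≤ Real.exp B) :
    ∃ (E : Fin D.s → ℕ) (y : Fin n → 𝓞 K),
      (∀ v, (E v : ℝ) ≤ |B| / Real.log (Ideal.absNorm (Ideal.span {D.U v}) : ℕ) + 1) ∧
      ∀ j, ((y j : 𝓞 K) : K) = ((∏ v, D.U v ^ E v : 𝓞 K) : K) * x j := by
  classical
  let E : Fin D.s → ℕ := fun v => ⌈|B| / Real.log (Ideal.absNorm (Ideal.span {D.U v}) : ℕ)⌉₊
  have hlog : ∀ v, 0 < Real.log (Ideal.absNorm (Ideal.span {D.U v}) : ℕ) := fun v =>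
    Real.log_pos (by exact_mod_cast one_lt_gen (D.P v) D.h D.hh (D.U v) (D.hU v))
  have hE1 : ∀ v, |B| / Real.log (Ideal.absNorm (Ideal.span {D.U v}) : ℕ) ≤ E v := fun v =>
    Nat.le_ceil _
  have hint : ∀ j, ∀ w : HeightOneSpectrum (𝓞 K),
      fv w (((∏ v, D.U v ^ E v : 𝓞 K) : K) * x j) ≤ 1 := by
    intro j w
    rw [fv_mul]
    by_cases hw : ∃ v, w = D.P v
    · obtain ⟨v, rfl⟩ := hw
      have h1 : fv (D.P v) ((∏ v, D.U v ^ E v : 𝓞 K) : K) =
          (((Ideal.absNorm (Ideal.span {D.U v}) : ℕ) : ℝ)⁻¹) ^ E v := by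
        rw [coe_U, fv_prod, Finset.prod_eq_single v]
        · rw [fv_pow, fv_gen (D.P v) D.h D.hh (D.U v) (D.hU v)]
        · intro v' _ hv'
          rw [fv_pow, fv_gen_ne (D.P v') D.h D.hh (D.U v') (D.hU v') (D.P v)
            (fun h => hv' (D.hP h).symm), one_pow]
        · intro h
          exact absurd (Finset.mem_univ _) h
      rw [h1]
      have h2 := hB v j
      have hA : (1 : ℝ) < (Ideal.absNorm (Ideal.span {D.U v}) : ℕ) := by
        exact_mod_cast one_lt_gen (D.P v) D.h D.hh (D.U v) (D.hU v)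
      have h3 : Real.exp B ≤ ((Ideal.absNorm (Ideal.span {D.U v}) : ℕ) : ℝ) ^ E v := by
        rw [← Real.log_le_log_iff (Real.exp_pos _) (by positivity), Real.log_exp, Real.log_pow]
        have h4 := hE1 v
        rw [div_le_iff₀ (hlog v)] at h4
        exact (le_abs_self B).trans h4
      rw [inv_pow]
      rw [inv_mul_le_iff₀ (by positivity), mul_one]
      exact h2.trans h3
    · push Not at hw
      have h1 : fv w ((∏ v, D.U v ^ E v : 𝓞 K) : K) ≤ 1 := fv_int w _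
      have h2 := hx j w hw
      exact mul_le_one₀ h1 (fv_nonneg _ _) h2
  choose y hy using fun j => mem_int _ (hint j)
  refine ⟨E, y, fun v => ?_, hy⟩
  exact (Nat.ceil_lt_add_one (div_nonneg (abs_nonneg _) (hlog v).le)).le

/-- the powers dividing an integer -/
theorem exps (y : 𝓞 K) (hy : y ≠ 0) :
    ∃ k : Fin D.s → ℕ, (∏ v, D.U v ^ k v) ∣ y ∧ ∀ v,
      -Real.log (fv (D.P v) (y : K)) - Real.log (Ideal.absNorm (Ideal.span {D.U v}) : ℕ) ≤
        k v * Real.log (Ideal.absNorm (Ideal.span {D.U v}) : ℕ) := by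
  classical
  have hyK : (y : K) ≠ 0 := RingOfIntegers.coe_ne_zero_iff.2 hy
  let k : Fin D.s → ℕ := fun v => ⌊-Real.log (fv (D.P v) (y : K)) /
    Real.log (Ideal.absNorm (Ideal.span {D.U v}) : ℕ)⌋₊
  have hlog : ∀ v, 0 < Real.log (Ideal.absNorm (Ideal.span {D.U v}) : ℕ) := fun v =>
    Real.log_pos (by exact_mod_cast one_lt_gen (D.P v) D.h D.hh (D.U v) (D.hU v))
  have hfv : ∀ v, 0 ≤ -Real.log (fv (D.P v) (y : K)) := by
    intro v
    have := Real.log_nonpos (fv_nonneg _ _) (fv_int (D.P v) y)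
    linarith
  have hint : ∀ w : HeightOneSpectrum (𝓞 K),
      fv w ((y : K) / ((∏ v, D.U v ^ k v : 𝓞 K) : K)) ≤ 1 := by
    intro w
    rw [fv_div]
    by_cases hw : ∃ v, w = D.P v
    · obtain ⟨v, rfl⟩ := hw
      have h1 : fv (D.P v) ((∏ v, D.U v ^ k v : 𝓞 K) : K) =
          (((Ideal.absNorm (Ideal.span {D.U v}) : ℕ) : ℝ)⁻¹) ^ k v := by
        rw [coe_U, fv_prod, Finset.prod_eq_single v]
        · rw [fv_pow, fv_gen (D.P v) D.h D.hh (D.U v) (D.hU v)]
        · intro v' _ hv'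
          rw [fv_pow, fv_gen_ne (D.P v') D.h D.hh (D.U v') (D.hU v') (D.P v)
            (fun h => hv' (D.hP h).symm), one_pow]
        · intro h
          exact absurd (Finset.mem_univ _) h
      rw [h1]
      have hA : (1 : ℝ) < (Ideal.absNorm (Ideal.span {D.U v}) : ℕ) := by
        exact_mod_cast one_lt_gen (D.P v) D.h D.hh (D.U v) (D.hU v)
      rw [inv_pow, div_inv_eq_mul]
      have hpos := fv_pos (D.P v) _ hyK
      rw [← Real.log_nonpos_iff (by positivity), Real.log_mul hpos.ne' (by positivity),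
        Real.log_pow]
      have h2 := Nat.floor_le (div_nonneg (hfv v) (hlog v).le)
      rw [le_div_iff₀ (hlog v)] at h2
      have h3 : ((k v : ℕ) : ℝ) * Real.log (Ideal.absNorm (Ideal.span {D.U v}) : ℕ) ≤
        -Real.log (fv (D.P v) (y : K)) := h2
      linarith
    · push Not at hw
      have h1 : fv w ((∏ v, D.U v ^ k v : 𝓞 K) : K) = 1 := by
        rw [coe_U, fv_prod]
        refine Finset.prod_eq_one fun v _ => ?_
        rw [fv_pow, fv_gen_ne (D.P v) D.h D.hh (D.U v) (D.hU v) w (hw v), one_pow]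
      rw [h1, div_one]
      exact fv_int w y
  obtain ⟨c, hc⟩ := mem_int _ hint
  have hne : ((∏ v, D.U v ^ k v : 𝓞 K) : K) ≠ 0 := RingOfIntegers.coe_ne_zero_iff.2
    (Finset.prod_ne_zero_iff.2 fun v _ => pow_ne_zero _ (D.U_ne v))
  refine ⟨k, ⟨c, ?_⟩, fun v => ?_⟩
  · apply RingOfIntegers.ext
    rw [RingOfIntegers.coe_eq_algebraMap, RingOfIntegers.coe_eq_algebraMap, map_mul]
    have h1 : (algebraMap (𝓞 K) K) c = _ := hc
    rw [h1]
    field_simp
  · have h1 := (Nat.lt_floor_add_one (-Real.log (fv (D.P v) (y : K)) /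
      Real.log (Ideal.absNorm (Ideal.span {D.U v}) : ℕ))).le
    rw [div_le_iff₀ (hlog v)] at h1
    have h2 : ((k v : ℕ) : ℝ) = ⌊-Real.log (fv (D.P v) (y : K)) /
      Real.log (Ideal.absNorm (Ideal.span {D.U v}) : ℕ)⌋₊ := rfl
    rw [h2]
    linarith

/-- the product formula -/
theorem sum_av_unit (y : 𝓞 K) (hy : y ≠ 0)
    (hy1 : ∀ w : HeightOneSpectrum (𝓞 K), (∀ v, w ≠ D.P v) → fv w (y : K) = 1) :
    ∑ v, Real.log (D.av v (y : K)) = 0 := by
  classical
  have hyK : (y : K) ≠ 0 := RingOfIntegers.coe_ne_zero_iff.2 hy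
  rw [Fintype.sum_sum_type]
  have h1 : ∑ σ : K ≃ₐ[ℚ] K, Real.log (D.av (Sum.inl σ) (y : K)) =
      Real.log |((Algebra.norm ℤ y : ℤ) : ℝ)| := by
    rw [norm_eq_prod D.ψ y hy]
    rfl
  have h2 := prod_fv y hy (Finset.univ.image D.P) (fun w hw => hy1 w fun v hv => hw
    (Finset.mem_image.2 ⟨v, Finset.mem_univ _, hv.symm⟩))
  rw [Finset.prod_image fun a _ b _ h => D.hP h] at h2
  have h3 : ∑ v : Fin D.s, Real.log (D.av (Sum.inr v) (y : K)) =
      -Real.log |((Algebra.norm ℤ y : ℤ) : ℝ)| := by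
    rw [← Real.log_inv, ← h2, Real.log_prod (fun v _ => (fv_pos _ _ hyK).ne')]
    rfl
  rw [h1, h3, add_neg_cancel]

end PD

end Pool.Agent.Y742.SF
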