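import Mathlib
import Pool.Agent.H9.Lib.R_seed8.Y742.SF.PD

/-!
Existence of place data; lower bounds for sums of logarithms and finiteness.
-/

set_option autoImplicit false
set_option linter.unusedSectionVars false
set_option linter.unusedSimpArgs false

open Finset Filter Topology

namespace Pool.Agent.Y742.SF

open NumberField IsDedekindDomain
open Pool.Agent.TH286.GT.GrowD (sg sg_coe sg_inj)
open Pool.Agent.Y215.SK

variable {K : Type} [Field K] [NumberField K]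

/-- the finite set of primes containing an integer -/
theorem finite_primes (m : ℕ) (hm : m ≠ 0) :
    {v : HeightOneSpectrum (𝓞 K) | (m : 𝓞 K) ∈ v.asIdeal}.Finite := by
  have h0 : (m : 𝓞 K) ≠ 0 := by exact_mod_cast hm
  have h1 := Ideal.finite_factors (I := Ideal.span {(m : 𝓞 K)}) (by
    rw [Ne, Ideal.zero_eq_bot, Ideal.span_singleton_eq_bot]
    exact h0)
  refine h1.subset fun v hv => ?_
  rw [Set.mem_ofPred_eq, Ideal.dvd_span_singleton]
  exact hv

theorem exists_embs [IsGalois ℚ K] (ψ φ : K →+* ℂ) : ∃ σ : K ≃ₐ[ℚ] K, ∀ x, φ x = ψ (σ x) := by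
  obtain ⟨σ, hσ⟩ := NumberField.ComplexEmbedding.exists_comp_symm_eq_of_comp_eq (k := ℚ) ψ
    φ (Subsingleton.elim _ _)
  exact ⟨σ.symm, fun x => (RingHom.congr_fun hσ x).symm⟩

/-- the action of the Galois group on the primes -/
noncomputable def sgV (σ : K ≃ₐ[ℚ] K) (v : HeightOneSpectrum (𝓞 K)) : HeightOneSpectrum (𝓞 K) where
  asIdeal := Ideal.map (NumberField.RingOfIntegers.mapRingEquiv σ.toRingEquiv) v.asIdeal
  isPrime := Ideal.map_isPrime_of_equiv _
  ne_bot := by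
    intro h
    rw [Ideal.map_eq_bot_iff_of_injective (RingEquiv.injective _)] at h
    exact v.ne_bot h

theorem exists_PD [IsGalois ℚ K] (hi : ∃ z : K, z ^ 2 = -1)
    (S : Set (HeightOneSpectrum (𝓞 K))) (hS : S.Finite) :
    ∃ D : PD K, ∀ v ∈ S, ∃ w, v = D.P w := by
  classical
  obtain ⟨ψ⟩ : Nonempty (K →+* ℂ) := inferInstance
  obtain ⟨cj, hcj⟩ := exists_embs ψ ((starRingEnd ℂ).comp ψ)
  obtain ⟨iK, hiK⟩ : ∃ iK : 𝓞 K, ψ (iK : K) = Complex.I := by
    obtain ⟨z, hz⟩ := hi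
    have hint : IsIntegral ℤ z := by
      refine ⟨Polynomial.X ^ 2 + 1, ?_, ?_⟩
      · monicity!
      · simp [hz]
    have h1 : (ψ z - Complex.I) * (ψ z + Complex.I) = 0 := by
      have h2 : ψ z ^ 2 = -1 := by rw [← map_pow, hz, map_neg, map_one]
      calc (ψ z - Complex.I) * (ψ z + Complex.I) = ψ z ^ 2 - Complex.I ^ 2 := by ring
        _ = 0 := by rw [h2, Complex.I_sq, sub_self]
    rcases mul_eq_zero.1 h1 with h | h
    · exact ⟨⟨z, hint⟩, sub_eq_zero.1 h⟩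
    · refine ⟨⟨-z, hint.neg⟩, ?_⟩
      show ψ (-z) = _
      rw [map_neg, eq_neg_of_add_eq_zero_left h, neg_neg]
  -- the primes
  let m : ℕ := ∏ v ∈ hS.toFinset, Ideal.absNorm v.asIdeal
  have hm : m ≠ 0 := by
    refine Finset.prod_ne_zero_iff.2 fun v _ => ?_
    rw [Ne, Ideal.absNorm_eq_zero_iff]
    exact v.ne_bot
  let T := {v : HeightOneSpectrum (𝓞 K) | (m : 𝓞 K) ∈ v.asIdeal}
  have hT : T.Finite := finite_primes m hm
  have hST : ∀ v ∈ S, v ∈ T := by
    intro v hv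
    have h1 : (Ideal.absNorm v.asIdeal : 𝓞 K) ∈ v.asIdeal := Ideal.absNorm_mem _
    have h2 : Ideal.absNorm v.asIdeal ∣ m := Finset.dvd_prod_of_mem _ (hS.mem_toFinset.2 hv)
    obtain ⟨c, hc⟩ := h2
    show (m : 𝓞 K) ∈ v.asIdeal
    rw [hc]
    push_cast
    exact Ideal.mul_mem_right _ _ h1
  have := hT.fintype
  let eT : T ≃ Fin (Fintype.card T) := Fintype.equivFin T
  have hact : ∀ (σ : K ≃ₐ[ℚ] K) (v : HeightOneSpectrum (𝓞 K)), v ∈ T → sgV σ v ∈ T := by
    intro σ v hv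
    show (m : 𝓞 K) ∈ Ideal.map _ v.asIdeal
    have h1 := Ideal.mem_map_of_mem (NumberField.RingOfIntegers.mapRingEquiv σ.toRingEquiv) hv
    rw [map_natCast] at h1
    exact h1
  let f : (K ≃ₐ[ℚ] K) → T → T := fun σ v => ⟨sgV σ v.1, hact σ v.1 v.2⟩
  have hfinj : ∀ σ, Function.Injective (f σ) := by
    intro σ v w hvw
    have h1 := congrArg (fun x : T => x.1.asIdeal) hvw
    have h2 : Ideal.map (NumberField.RingOfIntegers.mapRingEquiv σ.toRingEquiv) v.1.asIdeal =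
      Ideal.map (NumberField.RingOfIntegers.mapRingEquiv σ.toRingEquiv) w.1.asIdeal := h1
    apply Subtype.ext
    apply HeightOneSpectrum.ext
    have h3 := congrArg (Ideal.comap
      (NumberField.RingOfIntegers.mapRingEquiv σ.toRingEquiv)) h2
    rw [Ideal.comap_map_of_bijective _ (RingEquiv.bijective _),
      Ideal.comap_map_of_bijective _ (RingEquiv.bijective _)] at h3
    exact h3
  let g : (K ≃ₐ[ℚ] K) → Equiv.Perm T := fun σ =>
    Equiv.ofBijective (f σ) ((Finite.injective_iff_bijective).1 (hfinj σ))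
  choose U hU using fun v : HeightOneSpectrum (𝓞 K) => exists_gen v
  refine ⟨⟨ψ, cj, fun x => (hcj x).symm, iK, hiK, Fintype.card T, fun j => (eT.symm j).1,
    fun a b hab => eT.symm.injective (Subtype.ext hab),
    fun σ => (eT.symm.trans (g σ)).trans eT, fun σ v => ?_,
    Fintype.card (ClassGroup (𝓞 K)), Fintype.card_pos, fun j => U (eT.symm j).1,
    fun v => hU _⟩, fun v hv => ⟨eT ⟨v, hST v hv⟩, ?_⟩⟩
  · show _ = (eT.symm (eT (g σ (eT.symm v)))).1.asIdeal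
    rw [Equiv.symm_apply_apply]
    show _ = Ideal.map (NumberField.RingOfIntegers.mapRingEquiv σ.toRingEquiv) _
    have h1 : ∀ x : 𝓞 K, sg σ x = NumberField.RingOfIntegers.mapRingEquiv σ.toRingEquiv x := by
      intro x
      apply RingOfIntegers.ext
      rw [sg_coe]
      rfl
    apply le_antisymm
    · rw [Ideal.map_le_iff_le_comap]
      intro x hx
      rw [Ideal.mem_comap, h1]
      exact Ideal.mem_map_of_mem _ hx
    · rw [Ideal.map_le_iff_le_comap]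
      intro x hx
      rw [Ideal.mem_comap, ← h1]
      exact Ideal.mem_map_of_mem _ hx
  · show v = (eT.symm (eT ⟨v, hST v hv⟩)).1
    rw [Equiv.symm_apply_apply]

namespace PD

variable [IsGalois ℚ K] (D : PD K)

theorem sum_av_int (y : 𝓞 K) (hy : y ≠ 0) : 0 ≤ ∑ v, Real.log (D.av v (y : K)) := by
  classical
  have hyK : (y : K) ≠ 0 := RingOfIntegers.coe_ne_zero_iff.2 hy
  rw [Fintype.sum_sum_type]
  have h1 : ∑ σ : K ≃ₐ[ℚ] K, Real.log (D.av (Sum.inl σ) (y : K)) =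
      Real.log |((Algebra.norm ℤ y : ℤ) : ℝ)| := by
    rw [norm_eq_prod D.ψ y hy]
    rfl
  have hfin : {w : HeightOneSpectrum (𝓞 K) | ¬ fv w (y : K) = 1}.Finite := by
    have h2 := Ideal.finite_factors (I := Ideal.span {y}) (by
      rw [Ne, Ideal.zero_eq_bot, Ideal.span_singleton_eq_bot]
      exact hy)
    refine h2.subset fun v hv => ?_
    rw [Set.mem_ofPred_eq, Ideal.dvd_span_singleton]
    rw [Set.mem_ofPred_eq, fv_eq_one_iff, not_not] at hv
    exact hv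
  let s : Finset (HeightOneSpectrum (𝓞 K)) := Finset.univ.image D.P ∪ hfin.toFinset
  have h2 := prod_fv y hy s (fun w hw => by
    by_contra h
    exact hw (Finset.mem_union_right _ (hfin.mem_toFinset.2 h)))
  have hsub : Finset.univ.image D.P ⊆ s := Finset.subset_union_left
  have h4 : ∏ w ∈ s, fv w (y : K) ≤ ∏ w ∈ Finset.univ.image D.P, fv w (y : K) := by
    rw [← Finset.prod_sdiff hsub]
    refine mul_le_of_le_one_left (Finset.prod_nonneg fun w _ => fv_nonneg _ _) ?_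
    exact Finset.prod_le_one (fun w _ => fv_nonneg _ _) fun w _ => fv_int _ _
  rw [Finset.prod_image fun a _ b _ h => D.hP h, h2] at h4
  have hN : (0 : ℝ) < |((Algebra.norm ℤ y : ℤ) : ℝ)| := by
    rw [abs_pos]
    exact_mod_cast (Algebra.norm_ne_zero_iff.2 hy : Algebra.norm ℤ y ≠ 0)
  have h5 := Real.log_le_log (inv_pos.2 hN) h4
  rw [Real.log_inv, Real.log_prod (fun v _ => (fv_pos _ _ hyK).ne')] at h5
  have h6 : ∑ v : Fin D.s, Real.log (D.av (Sum.inr v) (y : K)) =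
      ∑ v : Fin D.s, Real.log (fv (D.P v) (y : K)) := rfl
  rw [h1, h6]
  linarith

theorem TInt_mul (x y : K) (hx : D.TInt x) (hy : D.TInt y) : D.TInt (x * y) := by
  intro w hw
  rw [fv_mul]
  exact mul_le_one₀ (hx w hw) (fv_nonneg _ _) (hy w hw)

theorem TInt_add (x y : K) (hx : D.TInt x) (hy : D.TInt y) : D.TInt (x + y) := by
  intro w hw
  exact (fv_add_le _ _ _).trans (max_le (hx w hw) (hy w hw))

theorem TInt_int (x : 𝓞 K) : D.TInt (x : K) := fun w _ => fv_int w x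

theorem TInt_one : D.TInt (1 : K) := fun w _ => by rw [fv_one]

theorem TInt_zero : D.TInt (0 : K) := fun w _ => by rw [fv_zero]; exact zero_le_one

theorem clear1 (x : K) (hx : D.TInt x) (B : ℝ)
    (hB : ∀ v, fv (D.P v) x ≤ Real.exp B) :
    ∃ (E : Fin D.s → ℕ) (y : 𝓞 K),
      (∀ v, (E v : ℝ) ≤ |B| / Real.log (Ideal.absNorm (Ideal.span {D.U v}) : ℕ) + 1) ∧
      ((y : 𝓞 K) : K) = ((∏ v, D.U v ^ E v : 𝓞 K) : K) * x := by
  obtain ⟨E, y, h1, h2⟩ := D.clear (n := 1) (fun _ => x) (fun _ => hx) B (fun v _ => hB v)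
  exact ⟨E, y 0, h1, h2 0⟩

theorem sum_av_nonneg (x : K) (hx0 : x ≠ 0) (hx : D.TInt x) : 0 ≤ ∑ v, Real.log (D.av v x) := by
  classical
  obtain ⟨E, y, -, hy⟩ := D.clear1 x hx (∑ v, |Real.log (fv (D.P v) x)|) (fun v => by
    rw [← Real.log_le_iff_le_exp (fv_pos _ _ hx0)]
    refine (le_abs_self _).trans ?_
    exact Finset.single_le_sum (f := fun v => |Real.log (fv (D.P v) x)|)
      (fun _ _ => abs_nonneg _) (Finset.mem_univ v))
  have hS0 : (∏ v, D.U v ^ E v : 𝓞 K) ≠ 0 :=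
    Finset.prod_ne_zero_iff.2 fun v _ => pow_ne_zero _ (D.U_ne v)
  have hS0K : ((∏ v, D.U v ^ E v : 𝓞 K) : K) ≠ 0 := RingOfIntegers.coe_ne_zero_iff.2 hS0
  have hy0 : y ≠ 0 := by
    rintro rfl
    have h1 : ((0 : 𝓞 K) : K) = 0 := by simp
    rw [h1] at hy
    exact mul_ne_zero hS0K hx0 hy.symm
  have h1 := D.sum_av_int y hy0
  have h2 := D.sum_av_unit _ hS0 (fun w hw => by
    rw [D.coe_U, fv_prod]
    refine Finset.prod_eq_one fun v _ => ?_
    rw [fv_pow, fv_gen_ne (D.P v) D.h D.hh (D.U v) (D.hU v) w (hw v), one_pow])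
  have h3 : ∑ v, Real.log (D.av v (y : K)) =
      ∑ v, Real.log (D.av v ((∏ v, D.U v ^ E v : 𝓞 K) : K)) + ∑ v, Real.log (D.av v x) := by
    rw [← Finset.sum_add_distrib]
    refine Finset.sum_congr rfl fun v _ => ?_
    rw [hy, D.av_mul, Real.log_mul (D.av_pos v _ hS0K).ne' (D.av_pos v _ hx0).ne']
  rw [h3, h2, zero_add] at h1
  exact h1

/-- finiteness -/
theorem finite_bdd (C : ℝ) : {x : K | D.TInt x ∧ ∀ v, D.av v x ≤ C}.Finite := by
  classical
  let B : ℝ := Real.log (|C| + 1)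
  have hCB : C ≤ Real.exp B := by
    rw [Real.exp_log (by positivity)]
    have := le_abs_self C
    linarith
  let M : ℕ := ∑ v : Fin D.s,
    ⌈|B| / Real.log (Ideal.absNorm (Ideal.span {D.U v}) : ℕ) + 1⌉₊
  let EE : Set (Fin D.s → ℕ) := {E | ∀ v, E v ≤ M}
  have hEE : EE.Finite := (Set.Finite.pi' fun _ : Fin D.s => Set.finite_Iic M).subset
    fun E hE => hE
  refine ((hEE.biUnion (t := fun E => {x : K | D.TInt x ∧ (∀ v, D.av v x ≤ C) ∧
    ∃ y : 𝓞 K, (y : K) = ((∏ v, D.U v ^ E v : 𝓞 K) : K) * x})) fun E _ => ?_).subset ?_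
  · -- the fibre
    have hS0 : (∏ v, D.U v ^ E v : 𝓞 K) ≠ 0 :=
      Finset.prod_ne_zero_iff.2 fun v _ => pow_ne_zero _ (D.U_ne v)
    have hS0K : ((∏ v, D.U v ^ E v : 𝓞 K) : K) ≠ 0 := RingOfIntegers.coe_ne_zero_iff.2 hS0
    let B' : ℝ := ∑ σ : K ≃ₐ[ℚ] K, ‖D.ψ (σ ((∏ v, D.U v ^ E v : 𝓞 K) : K))‖ * |C|
    have hfin := Embeddings.finite_of_norm_le K ℂ B'
    refine ((hfin.image fun y => y / ((∏ v, D.U v ^ E v : 𝓞 K) : K))).subset ?_
    rintro x ⟨hx1, hx2, y, hy⟩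
    refine ⟨(y : K), ⟨y.2, fun φ => ?_⟩, ?_⟩
    · obtain ⟨σ, hσ⟩ := exists_embs D.ψ φ
      rw [hσ, hy, map_mul, map_mul, norm_mul]
      have h1 : ‖D.ψ (σ x)‖ ≤ |C| := (hx2 (Sum.inl σ)).trans (le_abs_self C)
      refine (mul_le_mul_of_nonneg_left h1 (norm_nonneg _)).trans ?_
      exact Finset.single_le_sum
        (f := fun σ : K ≃ₐ[ℚ] K => ‖D.ψ (σ ((∏ v, D.U v ^ E v : 𝓞 K) : K))‖ * |C|)
        (fun _ _ => mul_nonneg (norm_nonneg _) (abs_nonneg _)) (Finset.mem_univ σ)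
    · simp only
      rw [hy, mul_div_cancel_left₀ _ hS0K]
  · rintro x ⟨hx1, hx2⟩
    obtain ⟨E, y, hE, hy⟩ := D.clear1 x hx1 B (fun v => (hx2 (Sum.inr v)).trans hCB)
    refine Set.mem_biUnion (x := E) ?_ ⟨hx1, hx2, y, hy⟩
    intro v
    have h1 : (E v : ℝ) ≤ ⌈|B| / Real.log (Ideal.absNorm (Ideal.span {D.U v}) : ℕ) + 1⌉₊ :=
      (hE v).trans (Nat.le_ceil _)
    have h2 : E v ≤ ⌈|B| / Real.log (Ideal.absNorm (Ideal.span {D.U v}) : ℕ) + 1⌉₊ := by
      exact_mod_cast h1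
    exact h2.trans (Finset.single_le_sum (f := fun v : Fin D.s =>
      ⌈|B| / Real.log (Ideal.absNorm (Ideal.span {D.U v}) : ℕ) + 1⌉₊)
      (fun _ _ => Nat.zero_le _) (Finset.mem_univ v))

end PD

end Pool.Agent.Y742.SF
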